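import Mathlib

open Filter Topology Set

namespace Pool.Agent.Results.MP_b30f08_an.NuclearErgodic

/-! ## Definitions -/

/-- An exponent `p ∈ {0} ∪ [1, ∞)`. -/
abbrev Exponent : Type := {p : ℝ // p = 0 ∨ 1 ≤ p}

/-- A decreasing sequence of strictly positive weights `V = (v^{(m)})_m`. -/
structure WeightSystem where
  v : ℕ → ℕ → ℝ
  pos : ∀ m j, 0 < v m j
  anti : ∀ m j, v (m + 1) j ≤ v m j

variable {𝕜 : Type*} [RCLike 𝕜]

/-- Membership of the scalar sequence `x` in the weighted Banach space `c₀(w)` (if `p = 0`) or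
`ℓ_p(w)` (if `p ≥ 1`). -/
def StepMem (p : ℝ) (w : ℕ → ℝ) (x : ℕ → 𝕜) : Prop :=
  if p = 0 then Tendsto (fun j => ‖x j‖ * w j) atTop (𝓝 0)
  else Summable fun j => (‖x j‖ * w j) ^ p

/-- The norm of `c₀(w)` (if `p = 0`) or `ℓ_p(w)` (if `p ≥ 1`). -/
noncomputable def stepNorm (p : ℝ) (w : ℕ → ℝ) (x : ℕ → 𝕜) : ℝ :=
  if p = 0 then ⨆ j, ‖x j‖ * w j else (∑' j, (‖x j‖ * w j) ^ p) ^ (1 / p)

section steplemmas

variable {p : ℝ} {w w' : ℕ → ℝ} {x y : ℕ → 𝕜}

lemma memℓp_of_stepMem (hp : p ≠ 0) (hp1 : 1 ≤ p) (hw : ∀ j, 0 ≤ w j) (hx : StepMem p w x) :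
    Memℓp (fun j => ‖x j‖ * w j) (ENNReal.ofReal p) := by
  have hp0 : 0 < p := by linarith
  rw [StepMem, if_neg hp] at hx
  refine (memℓp_gen_iff (by rw [ENNReal.toReal_ofReal hp0.le]; exact hp0)).2 ?_
  rw [ENNReal.toReal_ofReal hp0.le]
  refine hx.congr (fun j => ?_)
  rw [Real.norm_of_nonneg (mul_nonneg (norm_nonneg _) (hw j))]

lemma stepMem_of_memℓp (hp : p ≠ 0) (hp1 : 1 ≤ p) (hw : ∀ j, 0 ≤ w j)
    (hx : Memℓp (fun j => ‖x j‖ * w j) (ENNReal.ofReal p)) : StepMem p w x := by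
  have hp0 : 0 < p := by linarith
  rw [StepMem, if_neg hp]
  have := (memℓp_gen_iff (by rw [ENNReal.toReal_ofReal hp0.le]; exact hp0)).1 hx
  rw [ENNReal.toReal_ofReal hp0.le] at this
  refine this.congr (fun j => ?_)
  rw [Real.norm_of_nonneg (mul_nonneg (norm_nonneg _) (hw j))]

lemma StepMem.of_le (hp : p = 0 ∨ 1 ≤ p) (hw : ∀ j, 0 ≤ w' j) 
    (h : ∀ j, ‖y j‖ * w' j ≤ ‖x j‖ * w j) (hx : StepMem p w x) : StepMem p w' y := by
  by_cases h0 : p = 0
  · rw [StepMem, if_pos h0] at *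
    exact squeeze_zero (fun j => mul_nonneg (norm_nonneg _) (hw j)) h hx
  · have hp1 : 1 ≤ p := hp.resolve_left h0
    rw [StepMem, if_neg h0] at *
    refine Summable.of_nonneg_of_le (fun j => Real.rpow_nonneg
      (mul_nonneg (norm_nonneg _) (hw j)) _) (fun j => ?_) hx
    exact Real.rpow_le_rpow (mul_nonneg (norm_nonneg _) (hw j)) (h j) (by linarith)

lemma StepMem.add (hp : p = 0 ∨ 1 ≤ p) (hw : ∀ j, 0 ≤ w j)
    (hx : StepMem p w x) (hy : StepMem p w y) : StepMem p w (x + y) := by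
  by_cases h0 : p = 0
  · rw [StepMem, if_pos h0] at *
    refine squeeze_zero (fun j => mul_nonneg (norm_nonneg _) (hw j)) (fun j => ?_)
      (by simpa using hx.add hy)
    rw [← add_mul]
    exact mul_le_mul_of_nonneg_right (norm_add_le _ _) (hw j)
  · have hp1 : 1 ≤ p := hp.resolve_left h0
    have h1 := (memℓp_of_stepMem h0 hp1 hw hx).add (memℓp_of_stepMem h0 hp1 hw hy)
    have h2 : Memℓp (fun j => ‖(x + y) j‖ * w j) (ENNReal.ofReal p) := by
      refine h1.mono' (fun j => ?_)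
      simp only [Pi.add_apply]
      rw [Real.norm_of_nonneg (mul_nonneg (norm_nonneg _) (hw j)), ← add_mul,
        Real.norm_of_nonneg (mul_nonneg (add_nonneg (norm_nonneg _) (norm_nonneg _)) (hw j))]
      exact mul_le_mul_of_nonneg_right (norm_add_le _ _) (hw j)
    exact stepMem_of_memℓp h0 hp1 hw h2

lemma StepMem.smul (hp : p = 0 ∨ 1 ≤ p) (hw : ∀ j, 0 ≤ w j) (c : 𝕜)
    (hx : StepMem p w x) : StepMem p w (c • x) := by
  have hc : StepMem p (fun j => ‖c‖ * w j) x := by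
    by_cases h0 : p = 0
    · rw [StepMem, if_pos h0] at *
      have := hx.const_mul ‖c‖
      rw [mul_zero] at this
      refine this.congr (fun j => by ring)
    · rw [StepMem, if_neg h0] at *
      have := hx.mul_left (‖c‖ ^ p)
      refine this.congr (fun j => ?_)
      rw [← Real.mul_rpow (norm_nonneg _) (mul_nonneg (norm_nonneg _) (hw j))]
      ring_nf
  refine hc.of_le hp hw (fun j => ?_)
  simp only [Pi.smul_apply, smul_eq_mul, norm_mul]
  apply le_of_eq; ring

lemma stepMem_zero : StepMem p w (0 : ℕ → 𝕜) := by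
  by_cases h0 : p = 0
  · simp [StepMem, h0]
  · simp [StepMem, h0, Real.zero_rpow h0]

/-- coordinate bound -/
lemma coord_le_stepNorm (hp : p = 0 ∨ 1 ≤ p) (hw : ∀ j, 0 ≤ w j) (hx : StepMem p w x) (j : ℕ) :
    ‖x j‖ * w j ≤ stepNorm p w x := by
  by_cases h0 : p = 0
  · rw [StepMem, if_pos h0] at hx
    rw [stepNorm, if_pos h0]
    exact le_ciSup hx.bddAbove_range j
  · have hp1 : 1 ≤ p := hp.resolve_left h0
    rw [StepMem, if_neg h0] at hx
    rw [stepNorm, if_neg h0]
    have hp0 : 0 < p := by linarith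
    have h1 : (‖x j‖ * w j) ^ p ≤ ∑' j, (‖x j‖ * w j) ^ p :=
      hx.le_tsum j (fun i _ => Real.rpow_nonneg (mul_nonneg (norm_nonneg _) (hw i)) _)
    have h2 := Real.rpow_le_rpow (Real.rpow_nonneg (mul_nonneg (norm_nonneg _) (hw j)) _) h1
      (by positivity : 0 ≤ 1 / p)
    rwa [← Real.rpow_mul (mul_nonneg (norm_nonneg _) (hw j)), mul_one_div, div_self h0,
      Real.rpow_one] at h2

lemma stepNorm_nonneg (hw : ∀ j, 0 ≤ w j) : 0 ≤ stepNorm p w x := by
  rw [stepNorm]
  split_ifs with h0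
  · exact Real.iSup_nonneg (fun j => mul_nonneg (norm_nonneg _) (hw j))
  · exact Real.rpow_nonneg (tsum_nonneg (fun j => Real.rpow_nonneg
      (mul_nonneg (norm_nonneg _) (hw j)) _)) _

lemma stepNorm_le_of_le (hp : p = 0 ∨ 1 ≤ p) (hw : ∀ j, 0 ≤ w' j)
    (h : ∀ j, ‖y j‖ * w' j ≤ ‖x j‖ * w j) (hx : StepMem p w x) :
    stepNorm p w' y ≤ stepNorm p w x := by
  have hy := hx.of_le hp hw h
  by_cases h0 : p = 0
  · rw [StepMem, if_pos h0] at hx hy
    rw [stepNorm, if_pos h0, stepNorm, if_pos h0]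
    exact ciSup_mono hx.bddAbove_range h
  · have hp1 : 1 ≤ p := hp.resolve_left h0
    have hp0 : 0 < p := by linarith
    rw [StepMem, if_neg h0] at hx hy
    rw [stepNorm, if_neg h0, stepNorm, if_neg h0]
    refine Real.rpow_le_rpow (tsum_nonneg (fun j => Real.rpow_nonneg
      (mul_nonneg (norm_nonneg _) (hw j)) _)) ?_ (by positivity)
    exact hy.tsum_le_tsum (fun j => Real.rpow_le_rpow
      (mul_nonneg (norm_nonneg _) (hw j)) (h j) hp0.le) hx

/-- Sequences summable against the weight belong to every step, with norm bound. -/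
lemma stepMem_of_summable (hp : p = 0 ∨ 1 ≤ p) (hw : ∀ j, 0 ≤ w j)
    (hx : Summable fun j => ‖x j‖ * w j) :
    StepMem p w x ∧ stepNorm p w x ≤ ∑' j, ‖x j‖ * w j := by
  have hnn : ∀ j, 0 ≤ ‖x j‖ * w j := fun j => mul_nonneg (norm_nonneg _) (hw j)
  by_cases h0 : p = 0
  · rw [StepMem, if_pos h0, stepNorm, if_pos h0]
    exact ⟨hx.tendsto_atTop_zero, ciSup_le (fun j => hx.le_tsum j (fun i _ => hnn i))⟩
  · have hp1 : 1 ≤ p := hp.resolve_left h0
    have hp0 : 0 < p := by linarith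
    set S := ∑' j, ‖x j‖ * w j with hS
    have hS0 : 0 ≤ S := tsum_nonneg hnn
    have hle : ∀ j, ‖x j‖ * w j ≤ S := fun j => hx.le_tsum j (fun i _ => hnn i)
    have key : ∀ j, (‖x j‖ * w j) ^ p ≤ (‖x j‖ * w j) * S ^ (p - 1) := by
      intro j
      rcases eq_or_lt_of_le (hnn j) with h | h
      · rw [← h, Real.zero_rpow h0, zero_mul]
      · have : (‖x j‖ * w j) ^ p = (‖x j‖ * w j) * (‖x j‖ * w j) ^ (p - 1) := by
          conv_lhs => rw [show p = 1 + (p - 1) by ring, Real.rpow_add h, Real.rpow_one]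
        rw [this]
        exact mul_le_mul_of_nonneg_left (Real.rpow_le_rpow h.le (hle j) (by linarith)) h.le
    have hsum : Summable fun j => (‖x j‖ * w j) ^ p :=
      Summable.of_nonneg_of_le (fun j => Real.rpow_nonneg (hnn j) _) key (hx.mul_right _)
    refine ⟨by rw [StepMem, if_neg h0]; exact hsum, ?_⟩
    rw [stepNorm, if_neg h0]
    have h1 : ∑' j, (‖x j‖ * w j) ^ p ≤ S ^ p := by
      calc ∑' j, (‖x j‖ * w j) ^ p ≤ ∑' j, (‖x j‖ * w j) * S ^ (p - 1) :=
            hsum.tsum_le_tsum key (hx.mul_right _)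
        _ = S * S ^ (p - 1) := by rw [tsum_mul_right]
        _ = S ^ p := by
            rcases eq_or_lt_of_le hS0 with h | h
            · rw [← h, Real.zero_rpow h0, zero_mul]
            · conv_rhs => rw [show p = 1 + (p - 1) by ring, Real.rpow_add h, Real.rpow_one]
    calc (∑' j, (‖x j‖ * w j) ^ p) ^ (1 / p) ≤ (S ^ p) ^ (1 / p) :=
          Real.rpow_le_rpow (tsum_nonneg (fun j => Real.rpow_nonneg (hnn j) _)) h1 (by positivity)
      _ = S := by rw [← Real.rpow_mul hS0, mul_one_div, div_self h0, Real.rpow_one]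

/-- The tails of an element of a step tend to zero in the norm of the step. -/
lemma tendsto_stepNorm_tail (hp : p = 0 ∨ 1 ≤ p) (hw : ∀ j, 0 ≤ w j) (hx : StepMem p w x) :
    Tendsto (fun N => stepNorm p w (fun j => if j < N then 0 else x j)) atTop (𝓝 0) := by
  have hnn : ∀ j, 0 ≤ ‖x j‖ * w j := fun j => mul_nonneg (norm_nonneg _) (hw j)
  by_cases h0 : p = 0
  · rw [StepMem, if_pos h0] at hx
    rw [Metric.tendsto_atTop] at hx ⊢
    intro ε hε
    obtain ⟨N, hN⟩ := hx (ε / 2) (by positivity)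
    refine ⟨N, fun n hn => ?_⟩
    rw [Real.dist_0_eq_abs, abs_of_nonneg (stepNorm_nonneg hw), stepNorm, if_pos h0]
    refine lt_of_le_of_lt (ciSup_le (fun j => ?_)) (half_lt_self hε)
    split_ifs with hj
    · simp; positivity
    · have := hN j (by omega)
      rw [Real.dist_0_eq_abs, abs_of_nonneg (hnn j)] at this
      exact this.le
  · have hp1 : 1 ≤ p := hp.resolve_left h0
    have hp0 : 0 < p := by linarith
    rw [StepMem, if_neg h0] at hx
    have h1 : ∀ N, stepNorm p w (fun j => if j < N then 0 else x j)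
        = (∑' j, (‖x (j + N)‖ * w (j + N)) ^ p) ^ (1 / p) := by
      intro N
      rw [stepNorm, if_neg h0]
      congr 1
      have hs : Summable (fun j => (‖(if j < N then 0 else x j : 𝕜)‖ * w j) ^ p) := by
        refine Summable.of_nonneg_of_le (fun j => Real.rpow_nonneg
          (mul_nonneg (norm_nonneg _) (hw j)) _) (fun j => ?_) hx
        split_ifs with hj
        · simp only [norm_zero, zero_mul, Real.zero_rpow h0]
          exact Real.rpow_nonneg (hnn j) _
        · exact le_rfl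
      rw [← hs.sum_add_tsum_nat_add N]
      have : ∑ i ∈ Finset.range N, (‖(if i < N then 0 else x i : 𝕜)‖ * w i) ^ p = 0 := by
        refine Finset.sum_eq_zero (fun i hi => ?_)
        rw [if_pos (Finset.mem_range.1 hi)]
        simp [Real.zero_rpow h0]
      rw [this, zero_add]
      refine tsum_congr (fun j => ?_)
      rw [if_neg (by omega)]
    simp_rw [h1]
    have h2 := tendsto_sum_nat_add (fun j => (‖x j‖ * w j) ^ p)
    have h3 := h2.rpow_const (p := 1 / p) (Or.inr (by positivity))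
    rwa [Real.zero_rpow (by positivity)] at h3

end steplemmas


/-! ## The Köthe coechelon space and its inductive limit topology -/

lemma WeightSystem.anti' (V : WeightSystem) {m n : ℕ} (h : m ≤ n) (j : ℕ) :
    V.v n j ≤ V.v m j := by
  induction n, h using Nat.le_induction with
  | base => exact le_rfl
  | succ n _ ih => exact (V.anti n j).trans ih

lemma WeightSystem.nonneg (V : WeightSystem) (m j : ℕ) : 0 ≤ V.v m j := (V.pos m j).le

lemma stepMem_mono (p : Exponent) (V : WeightSystem) {m n : ℕ} (h : m ≤ n) {x : ℕ → 𝕜}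
    (hx : StepMem p.1 (V.v m) x) : StepMem p.1 (V.v n) x :=
  hx.of_le p.2 (V.nonneg n)
    (fun j => mul_le_mul_of_nonneg_left (V.anti' h j) (norm_nonneg _))

variable (𝕜)

/-- The underlying vector space of `k_p(V)`: the union of the steps. -/
def coechelonSubmodule (p : Exponent) (V : WeightSystem) : Submodule 𝕜 (ℕ → 𝕜) where
  carrier := {x | ∃ m, StepMem p.1 (V.v m) x}
  add_mem' := by
    rintro x y ⟨m, hx⟩ ⟨n, hy⟩
    exact ⟨max m n, (stepMem_mono p V (le_max_left m n) hx).add p.2 (V.nonneg _)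
      (stepMem_mono p V (le_max_right m n) hy)⟩
  zero_mem' := ⟨0, stepMem_zero⟩
  smul_mem' := by
    rintro c x ⟨m, hx⟩
    exact ⟨m, hx.smul p.2 (V.nonneg _) c⟩

/-- The Köthe coechelon space `k_p(V)`, as a type. -/
def Coechelon (p : Exponent) (V : WeightSystem) : Type _ := coechelonSubmodule 𝕜 p V

noncomputable instance (p : Exponent) (V : WeightSystem) : AddCommGroup (Coechelon 𝕜 p V) :=
  inferInstanceAs (AddCommGroup (coechelonSubmodule 𝕜 p V))

noncomputable instance (p : Exponent) (V : WeightSystem) : Module 𝕜 (Coechelon 𝕜 p V) :=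
  inferInstanceAs (Module 𝕜 (coechelonSubmodule 𝕜 p V))

variable {𝕜}

/-- The scalar sequence underlying an element of `k_p(V)`. -/
def Coechelon.seq {p : Exponent} {V : WeightSystem} (x : Coechelon 𝕜 p V) : ℕ → 𝕜 := x.1

/-- A seminorm on `k_p(V)` is step-continuous if its restriction to each of the Banach spaces
`ℓ_p(v^{(m)})` (resp. `c₀(v^{(m)})`) is continuous. -/
def StepContinuous {p : Exponent} {V : WeightSystem} (q : Seminorm 𝕜 (Coechelon 𝕜 p V)) : Prop :=
  ∀ m, ∃ C : ℝ, ∀ x : Coechelon 𝕜 p V, StepMem p.1 (V.v m) x.seq →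
    q x ≤ C * stepNorm p.1 (V.v m) x.seq

variable (𝕜)

/-- The family of all step-continuous seminorms. -/
def inductiveFamily (p : Exponent) (V : WeightSystem) :
    SeminormFamily 𝕜 (Coechelon 𝕜 p V) {q : Seminorm 𝕜 (Coechelon 𝕜 p V) // StepContinuous q} :=
  fun q => q.1

/-- The locally convex inductive limit topology of `k_p(V) = ind_m ℓ_p(v^{(m)})`
(resp. `ind_m c₀(v^{(m)})`): the topology defined by all seminorms whose restriction to every
step is continuous. -/
noncomputable instance (p : Exponent) (V : WeightSystem) : TopologicalSpace (Coechelon 𝕜 p V) :=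
  (inductiveFamily 𝕜 p V).moduleFilterBasis.topology

/-- The backward shift `B(x₀, x₁, …) = (x₁, x₂, …)` on `k_p(V)`, if it maps `k_p(V)` to itself. -/
def backwardShift (p : Exponent) (V : WeightSystem)
    (hB : ∀ x ∈ coechelonSubmodule 𝕜 p V, (fun j => x (j + 1)) ∈ coechelonSubmodule 𝕜 p V) :
    Coechelon 𝕜 p V → Coechelon 𝕜 p V :=
  fun x => ⟨fun j => x.1 (j + 1), hB x.1 x.2⟩

/-- `E` is nuclear: for each continuous seminorm `p` there is a continuous seminorm `q ≥ p` such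
that the canonical map `E_q → E_p` of local spaces is nuclear, i.e. given by an expansion
`x = ∑ c_k f_k(x) y_k` (convergent for `p`) with `∑ |c_k| < ∞`, `|f_k| ≤ q` and `p(y_k) ≤ 1`. -/
def IsNuclearSpace (E : Type*) [AddCommGroup E] [Module 𝕜 E] [TopologicalSpace E] : Prop :=
  ∀ p : Seminorm 𝕜 E, Continuous p → ∃ q : Seminorm 𝕜 E, Continuous q ∧ p ≤ q ∧
    ∃ (c : ℕ → ℝ) (f : ℕ → (E →ₗ[𝕜] 𝕜)) (y : ℕ → E),
      Summable (fun k => |c k|) ∧ (∀ k x, ‖f k x‖ ≤ q x) ∧ (∀ k, p (y k) ≤ 1) ∧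
      ∀ x, Tendsto (fun N => p (x - ∑ k ∈ Finset.range N, ((c k : 𝕜) * f k x) • y k)) atTop (𝓝 0)

variable {𝕜}

/-- `N_T(U,W) = {n ≥ 1 : T^n(U) ∩ W ≠ ∅}`. -/
def returnSet {E : Type*} (T : E → E) (U W : Set E) : Set ℕ :=
  {n | 1 ≤ n ∧ (T^[n] '' U ∩ W).Nonempty}

/-- A set of positive integers is syndetic if it has bounded gaps. -/
def IsSyndetic (A : Set ℕ) : Prop := ∃ q : ℕ, ∀ n : ℕ, 1 ≤ n → ∃ i ∈ A, n ≤ i ∧ i ≤ n + q

/-- Topological ergodicity: all return sets between nonempty open sets are syndetic. -/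
def TopologicallyErgodic {E : Type*} [TopologicalSpace E] (T : E → E) : Prop :=
  ∀ U W : Set E, IsOpen U → IsOpen W → U.Nonempty → W.Nonempty → IsSyndetic (returnSet T U W)

/-- Sequential hypercyclicity: some orbit is sequentially dense. -/
def SequentiallyHypercyclic {E : Type*} [TopologicalSpace E] (T : E → E) : Prop :=
  ∃ x : E, ∀ y : E, ∃ u : ℕ → ℕ, Tendsto (fun i => T^[u i] x) atTop (𝓝 y)

/-! ## Basic facts on the topology -/

section topology

variable {p : Exponent} {V : WeightSystem}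

lemma withSeminorms : WithSeminorms (inductiveFamily 𝕜 p V) := ⟨rfl⟩

lemma StepContinuous.continuous {q : Seminorm 𝕜 (Coechelon 𝕜 p V)} (hq : StepContinuous q) :
    Continuous q :=
  withSeminorms.continuous_seminorm ⟨q, hq⟩

lemma seq_add (x y : Coechelon 𝕜 p V) : (x + y).seq = x.seq + y.seq := rfl
lemma seq_sub (x y : Coechelon 𝕜 p V) : (x - y).seq = x.seq - y.seq := rfl
lemma seq_smul (c : 𝕜) (x : Coechelon 𝕜 p V) : (c • x).seq = c • x.seq := rfl
lemma seq_zero : (0 : Coechelon 𝕜 p V).seq = 0 := rfl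

lemma seq_sum {ι : Type*} (s : Finset ι) (f : ι → Coechelon 𝕜 p V) :
    (∑ i ∈ s, f i).seq = ∑ i ∈ s, (f i).seq := by
  classical
  induction s using Finset.induction_on with
  | empty => simp [seq_zero]
  | insert a s ha ih => rw [Finset.sum_insert ha, Finset.sum_insert ha, seq_add, ih]

/-- Continuous seminorms are step-continuous. -/
lemma stepContinuous_of_continuous {q : Seminorm 𝕜 (Coechelon 𝕜 p V)} (hq : Continuous q) :
    StepContinuous q := by
  obtain ⟨s, C, -, h⟩ := Seminorm.bound_of_continuous (withSeminorms (𝕜 := 𝕜) (p := p) (V := V)) q hq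
  intro m
  classical
  have key : ∀ s : Finset {q : Seminorm 𝕜 (Coechelon 𝕜 p V) // StepContinuous q},
      ∃ C : ℝ, ∀ x : Coechelon 𝕜 p V, StepMem p.1 (V.v m) x.seq →
      (s.sup (inductiveFamily 𝕜 p V)) x ≤ C * stepNorm p.1 (V.v m) x.seq := by
    intro s
    induction s using Finset.induction_on with
    | empty =>
      refine ⟨0, fun x _ => ?_⟩
      simp
    | insert a s ha ih =>
      obtain ⟨C1, h1⟩ := ih
      obtain ⟨C2, h2⟩ := a.2 m
      refine ⟨max C2 C1, fun x hx => ?_⟩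
      rw [Finset.sup_insert, Seminorm.sup_apply]
      have hn := stepNorm_nonneg (p := p.1) (x := x.seq) (V.nonneg m)
      refine max_le ?_ ?_
      · exact (h2 x hx).trans (mul_le_mul_of_nonneg_right (le_max_left _ _) hn)
      · exact (h1 x hx).trans (mul_le_mul_of_nonneg_right (le_max_right _ _) hn)
  obtain ⟨C', hC'⟩ := key s
  refine ⟨C * C', fun x hx => ?_⟩
  have h1 := h x
  rw [smul_apply] at h1
  refine h1.trans ?_
  rw [NNReal.smul_def, smul_eq_mul, mul_assoc]
  exact mul_le_mul_of_nonneg_left (hC' x hx) C.2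

/-- Convergence criterion in one step. -/
lemma tendsto_of_step {u : ℕ → Coechelon 𝕜 p V} {y : Coechelon 𝕜 p V} (m : ℕ)
    (hmem : ∀ i, StepMem p.1 (V.v m) (u i - y).seq)
    (hlim : Tendsto (fun i => stepNorm p.1 (V.v m) (u i - y).seq) atTop (𝓝 0)) :
    Tendsto u atTop (𝓝 y) := by
  rw [(withSeminorms (𝕜 := 𝕜) (p := p) (V := V)).tendsto_nhds]
  intro q ε hε
  obtain ⟨C, hC⟩ := q.2 m
  have h1 : Tendsto (fun i => C * stepNorm p.1 (V.v m) (u i - y).seq) atTop (𝓝 0) := by
    simpa using hlim.const_mul C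
  have h2 := h1.eventually (gt_mem_nhds hε)
  filter_upwards [h2] with i hi
  exact lt_of_le_of_lt (hC _ (hmem i)) hi

end topology

/-! ## The weight condition forced by `B` mapping `k_p(V)` into itself -/

section shiftcondition

variable {p : Exponent} {V : WeightSystem}

lemma shift_condition
    (hB : ∀ x ∈ coechelonSubmodule 𝕜 p V, (fun j => x (j + 1)) ∈ coechelonSubmodule 𝕜 p V)
    (m : ℕ) : ∃ n, ∃ C : ℝ, ∀ j, V.v n j ≤ C * V.v m (j + 1) := by
  by_contra hcon
  push Not at hcon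
  have hfreq : ∀ n : ℕ, ∃ᶠ j in atTop, (4 : ℝ) ^ n * V.v m (j + 1) < V.v n j := by
    intro n
    rw [frequently_atTop]
    by_contra hc
    push Not at hc
    obtain ⟨J, hJ⟩ := hc
    obtain ⟨j, hj⟩ := hcon n ((4 : ℝ) ^ n + ∑ i ∈ Finset.range J, V.v n i / V.v m (i + 1))
    have hpos : ∀ i, 0 ≤ V.v n i / V.v m (i + 1) :=
      fun i => div_nonneg (V.nonneg _ _) (V.nonneg _ _)
    have hsum : 0 ≤ ∑ i ∈ Finset.range J, V.v n i / V.v m (i + 1) :=
      Finset.sum_nonneg (fun i _ => hpos i)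
    rcases lt_or_ge j J with h | h
    · have h1 : V.v n j / V.v m (j + 1) ≤ ∑ i ∈ Finset.range J, V.v n i / V.v m (i + 1) :=
        Finset.single_le_sum (f := fun i => V.v n i / V.v m (i + 1)) (fun i _ => hpos i)
          (Finset.mem_range.2 h)
      have h2 : V.v n j ≤ (∑ i ∈ Finset.range J, V.v n i / V.v m (i + 1)) * V.v m (j + 1) := by
        rwa [div_le_iff₀ (V.pos _ _)] at h1
      have h3 : 0 ≤ (4 : ℝ) ^ n * V.v m (j + 1) := mul_nonneg (by positivity) (V.nonneg _ _)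
      nlinarith
    · have h1 := hJ j h
      have h3 : 0 ≤ (∑ i ∈ Finset.range J, V.v n i / V.v m (i + 1)) * V.v m (j + 1) :=
        mul_nonneg hsum (V.nonneg _ _)
      nlinarith
  obtain ⟨φ, hφ, hφ2⟩ := extraction_forall_of_frequently hfreq
  classical
  set g : ℕ → ℕ := fun n => φ n + 1 with hg
  have hginj : Function.Injective g := fun a b h => hφ.injective (by simpa [hg] using h)
  set x : ℕ → 𝕜 := fun i => if h : ∃ n, g n = i then
    (((1 / 2 : ℝ) ^ (Classical.choose h) / V.v m i : ℝ) : 𝕜) else 0 with hx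
  have hxg : ∀ n, x (g n) = (((1 / 2 : ℝ) ^ n / V.v m (g n) : ℝ) : 𝕜) := by
    intro n
    have h : ∃ k, g k = g n := ⟨n, rfl⟩
    have h2 : Classical.choose h = n := hginj (Classical.choose_spec h)
    simp only [hx]
    rw [dif_pos h, h2]
  have hnorm : ∀ n, ‖x (g n)‖ * V.v m (g n) = (1 / 2 : ℝ) ^ n := by
    intro n
    rw [hxg, RCLike.norm_ofReal, abs_of_nonneg (div_nonneg (by positivity) (V.nonneg _ _)),
      div_mul_cancel₀ _ (V.pos _ _).ne']
  have hsummable : Summable fun i => ‖x i‖ * V.v m i := by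
    rw [← hginj.summable_iff]
    · have : ((fun i => ‖x i‖ * V.v m i) ∘ g) = fun n => (1 / 2 : ℝ) ^ n := by
        ext n; exact hnorm n
      rw [this]
      exact summable_geometric_of_lt_one (by norm_num) (by norm_num)
    · intro i hi
      have : ¬ ∃ n, g n = i := fun ⟨n, hn⟩ => hi ⟨n, hn⟩
      simp only [hx]
      rw [dif_neg this, norm_zero, zero_mul]
  have hmem : x ∈ coechelonSubmodule 𝕜 p V :=
    ⟨m, (stepMem_of_summable p.2 (V.nonneg m) hsummable).1⟩
  obtain ⟨m', hm'⟩ := hB x hmem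
  set K := stepNorm p.1 (V.v m') (fun j => x (j + 1)) with hK
  obtain ⟨n, hn⟩ := (tendsto_pow_atTop_atTop_of_one_lt (by norm_num : (1 : ℝ) < 2)).eventually
    (eventually_gt_atTop K) |>.and (eventually_ge_atTop m') |>.exists
  have h1 := coord_le_stepNorm p.2 (V.nonneg m') hm' (φ n)
  have h2 : ‖x (φ n + 1)‖ * V.v m (φ n + 1) = (1 / 2 : ℝ) ^ n := hnorm n
  have h3 := hφ2 n
  have h4 : V.v n (φ n) ≤ V.v m' (φ n) := V.anti' hn.2 _
  have h5 : (2 : ℝ) ^ n ≤ ‖x (φ n + 1)‖ * V.v m' (φ n) := by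
    calc (2 : ℝ) ^ n = (4 : ℝ) ^ n * (1 / 2 : ℝ) ^ n := by
          rw [← mul_pow]; norm_num
      _ = ‖x (φ n + 1)‖ * ((4 : ℝ) ^ n * V.v m (φ n + 1)) := by rw [← h2]; ring
      _ ≤ ‖x (φ n + 1)‖ * V.v m' (φ n) :=
          mul_le_mul_of_nonneg_left (h3.le.trans h4) (norm_nonneg _)
  have h6 := hn.1
  linarith

end shiftcondition

/-! ## Blocks of large weights -/

section blocks

variable {V : WeightSystem}

lemma frequently_large
    (hS : ∀ m, ∃ n, Tendsto (fun j => V.v n j / V.v m j) atTop (𝓝 0))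
    (hno : ∀ m, ¬ Tendsto (V.v m) atTop (𝓝 0)) (L : ℕ) (R : ℝ) :
    ∃ᶠ j in atTop, R ≤ V.v L j := by
  obtain ⟨n, hn⟩ := hS L
  have h1 : ∃ ε > 0, ∃ᶠ j in atTop, ε ≤ V.v n j := by
    by_contra hc
    push Not at hc
    apply hno n
    rw [Metric.tendsto_atTop']
    intro ε hε
    have := hc ε hε
    rw [eventually_atTop] at this
    obtain ⟨N, hN⟩ := this
    refine ⟨N, fun j hj => ?_⟩
    rw [Real.dist_0_eq_abs, abs_of_nonneg (V.nonneg _ _)]
    exact hN j hj.le
  obtain ⟨ε, hε, hfr⟩ := h1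
  have hR : (0 : ℝ) < ε / (|R| + 1) := by positivity
  have h2 := hn.eventually (gt_mem_nhds hR)
  refine (hfr.and_eventually h2).mono (fun j hj => ?_)
  obtain ⟨ha, hb⟩ := hj
  rw [div_lt_div_iff₀ (V.pos _ _) (by positivity)] at hb
  have h3 : |R| + 1 < V.v L j := by
    by_contra hc
    push Not at hc
    have : ε * V.v L j ≤ V.v n j * (|R| + 1) := by
      calc ε * V.v L j ≤ ε * (|R| + 1) := mul_le_mul_of_nonneg_left hc hε.le
        _ ≤ V.v n j * (|R| + 1) := mul_le_mul_of_nonneg_right ha (by positivity)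
    linarith
  have := le_abs_self R
  linarith

lemma frequently_blocks
    (hC : ∀ m, ∃ n, ∃ C : ℝ, ∀ j, V.v n j ≤ C * V.v m (j + 1))
    (hS : ∀ m, ∃ n, Tendsto (fun j => V.v n j / V.v m j) atTop (𝓝 0))
    (hno : ∀ m, ¬ Tendsto (V.v m) atTop (𝓝 0)) (k : ℕ) :
    ∀ (L : ℕ) (R : ℝ), ∃ᶠ j in atTop, ∀ i ≤ k, R ≤ V.v L (j + i) := by
  induction k with
  | zero =>
    intro L R
    refine (frequently_large hS hno L R).mono (fun j hj i hi => ?_)
    obtain rfl : i = 0 := by omega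
    simpa using hj
  | succ k ih =>
    intro L R
    obtain ⟨n, C, hn⟩ := hC L
    have hCpos : 0 < C := by
      have h1 := hn 0
      have h2 := V.pos n 0
      have h3 := V.pos L (0 + 1)
      by_contra hc
      push Not at hc
      nlinarith
    refine (ih (max n L) (max R (R * C))).mono (fun j hj i hi => ?_)
    rcases Nat.lt_or_ge k i with h | h
    · obtain rfl : i = k + 1 := by omega
      have h1 := (le_max_right R (R * C)).trans (hj k le_rfl)
      have h2 := V.anti' (le_max_left n L) (j + k)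
      have h3 := hn (j + k)
      have h4 : R * C ≤ C * V.v L (j + k + 1) := h1.trans (h2.trans h3)
      have h5 : C * R ≤ C * V.v L (j + k + 1) := by linarith
      have := le_of_mul_le_mul_left h5 hCpos
      simpa [add_assoc] using this
    · have h1 := (le_max_left R (R * C)).trans (hj i h)
      exact h1.trans (V.anti' (le_max_right n L) (j + i))

end blocks

/-! ## Block seminorms and failure of ergodicity -/

section nonergodic

variable {p : Exponent} {V : WeightSystem}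

/-- the unit vector `e_j` -/
noncomputable def unitVec (𝕜 : Type*) [RCLike 𝕜] (p : Exponent) (V : WeightSystem) (j : ℕ) :
    Coechelon 𝕜 p V :=
  ⟨Pi.single j 1, 0, by
    refine (stepMem_of_summable p.2 (V.nonneg 0) ?_).1
    refine summable_of_ne_finset_zero (s := {j}) (fun i hi => ?_)
    rw [Pi.single_eq_of_ne (by simpa using hi), norm_zero, zero_mul]⟩

lemma unitVec_seq (j : ℕ) : (unitVec 𝕜 p V j).seq = Pi.single j 1 := rfl

/-- coordinate seminorm -/
noncomputable def coordSeminorm (𝕜 : Type*) [RCLike 𝕜] (p : Exponent) (V : WeightSystem) (j : ℕ) :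
    Seminorm 𝕜 (Coechelon 𝕜 p V) :=
  Seminorm.of (fun x => ‖x.seq j‖) (fun x y => by rw [seq_add]; exact norm_add_le _ _)
    (fun c x => by rw [seq_smul]; simp)

lemma coordSeminorm_apply (j : ℕ) (x : Coechelon 𝕜 p V) :
    coordSeminorm 𝕜 p V j x = ‖x.seq j‖ := rfl

lemma coordSeminorm_stepContinuous (j : ℕ) : StepContinuous (coordSeminorm 𝕜 p V j) := by
  intro m
  refine ⟨(V.v m j)⁻¹, fun x hx => ?_⟩
  have h := coord_le_stepNorm p.2 (V.nonneg m) hx j
  rw [coordSeminorm_apply]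
  rw [inv_mul_eq_div, le_div_iff₀ (V.pos _ _)]
  exact h

/-- bound for coordinates in a set on which high weights are large -/
lemma blockBound {φ : ℕ → ℕ} (hφ : StrictMono φ) (hb : ∀ k, ∀ i ≤ k, 1 ≤ V.v k (φ k + i))
    (m : ℕ) : ∃ C : ℝ, ∀ x : Coechelon 𝕜 p V, StepMem p.1 (V.v m) x.seq →
      ∀ n, (∃ k, φ k ≤ n ∧ n ≤ φ k + k) → ‖x.seq n‖ ≤ C * stepNorm p.1 (V.v m) x.seq := by
  refine ⟨1 + ∑ i ∈ Finset.range (φ m + m + 1), (V.v m i)⁻¹, fun x hx n hn => ?_⟩
  obtain ⟨k, hk1, hk2⟩ := hn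
  have h := coord_le_stepNorm p.2 (V.nonneg m) hx n
  have h0 : 0 ≤ stepNorm p.1 (V.v m) x.seq := stepNorm_nonneg (V.nonneg m)
  have hs : 0 ≤ ∑ i ∈ Finset.range (φ m + m + 1), (V.v m i)⁻¹ :=
    Finset.sum_nonneg (fun i _ => inv_nonneg.2 (V.nonneg _ _))
  rcases le_or_gt m k with hmk | hmk
  · have h1 : 1 ≤ V.v m n := by
      have := hb k (n - φ k) (by omega)
      rw [show φ k + (n - φ k) = n by omega] at this
      exact this.trans (V.anti' hmk n)
    have h2 : ‖x.seq n‖ ≤ ‖x.seq n‖ * V.v m n := le_mul_of_one_le_right (norm_nonneg _) h1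
    nlinarith [mul_nonneg hs h0]
  · have h1 : n < φ m + m + 1 := by
      have := hφ hmk
      omega
    have h2 : (V.v m n)⁻¹ ≤ ∑ i ∈ Finset.range (φ m + m + 1), (V.v m i)⁻¹ :=
      Finset.single_le_sum (f := fun i => (V.v m i)⁻¹)
        (fun i _ => inv_nonneg.2 (V.nonneg _ _)) (Finset.mem_range.2 h1)
    have h3 : ‖x.seq n‖ ≤ (V.v m n)⁻¹ * stepNorm p.1 (V.v m) x.seq := by
      rw [inv_mul_eq_div, le_div_iff₀ (V.pos _ _)]
      exact h
    have h4 := mul_le_mul_of_nonneg_right h2 h0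
    nlinarith

open Classical in
/-- the block seminorm `x ↦ sup_{n ∈ S} |x_n|` -/
noncomputable def blockSeminorm (𝕜 : Type*) [RCLike 𝕜] (p : Exponent) (V : WeightSystem)
    {φ : ℕ → ℕ} (hφ : StrictMono φ) (hb : ∀ k, ∀ i ≤ k, 1 ≤ V.v k (φ k + i)) :
    Seminorm 𝕜 (Coechelon 𝕜 p V) :=
  have hbdd : ∀ x : Coechelon 𝕜 p V, BddAbove (range fun n : ℕ =>
      if (∃ k, φ k ≤ n ∧ n ≤ φ k + k) then ‖x.seq n‖ else 0) := by
    intro x
    obtain ⟨m, hm⟩ := x.2
    obtain ⟨C, hC⟩ := blockBound (𝕜 := 𝕜) (p := p) (V := V) hφ hb m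
    refine ⟨|C| * stepNorm p.1 (V.v m) x.seq, ?_⟩
    rintro _ ⟨n, rfl⟩
    have h0 : 0 ≤ stepNorm p.1 (V.v m) x.seq := stepNorm_nonneg (V.nonneg m)
    dsimp only
    split_ifs with h
    · exact (hC x hm n h).trans (mul_le_mul_of_nonneg_right (le_abs_self _) h0)
    · exact mul_nonneg (abs_nonneg _) h0
  Seminorm.of (fun x => ⨆ n : ℕ, if (∃ k, φ k ≤ n ∧ n ≤ φ k + k) then ‖x.seq n‖ else 0)
    (fun x y => by
      refine ciSup_le (fun n => ?_)
      have h1 := le_ciSup (hbdd x) n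
      have h2 := le_ciSup (hbdd y) n
      split_ifs at h1 h2 ⊢ with h
      · rw [seq_add]
        exact (norm_add_le _ _).trans (add_le_add h1 h2)
      · exact add_nonneg h1 h2)
    (fun c x => by
      rw [Real.mul_iSup_of_nonneg (norm_nonneg _)]
      refine iSup_congr (fun n => ?_)
      split_ifs with h
      · rw [seq_smul]; simp
      · simp)

lemma le_blockSeminorm {φ : ℕ → ℕ} (hφ : StrictMono φ)
    (hb : ∀ k, ∀ i ≤ k, 1 ≤ V.v k (φ k + i)) (x : Coechelon 𝕜 p V) {n : ℕ}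
    (hn : ∃ k, φ k ≤ n ∧ n ≤ φ k + k) : ‖x.seq n‖ ≤ blockSeminorm 𝕜 p V hφ hb x := by
  classical
  obtain ⟨m, hm⟩ := x.2
  obtain ⟨C, hC⟩ := blockBound (𝕜 := 𝕜) (p := p) (V := V) hφ hb m
  have hbdd : BddAbove (range fun n : ℕ =>
      if (∃ k, φ k ≤ n ∧ n ≤ φ k + k) then ‖x.seq n‖ else 0) := by
    refine ⟨|C| * stepNorm p.1 (V.v m) x.seq, ?_⟩
    rintro _ ⟨n, rfl⟩
    have h0 : 0 ≤ stepNorm p.1 (V.v m) x.seq := stepNorm_nonneg (V.nonneg m)
    dsimp only
    split_ifs with h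
    · exact (hC x hm n h).trans (mul_le_mul_of_nonneg_right (le_abs_self _) h0)
    · exact mul_nonneg (abs_nonneg _) h0
  have := le_ciSup hbdd n
  rw [if_pos hn] at this
  exact this

lemma blockSeminorm_stepContinuous {φ : ℕ → ℕ} (hφ : StrictMono φ)
    (hb : ∀ k, ∀ i ≤ k, 1 ≤ V.v k (φ k + i)) :
    StepContinuous (blockSeminorm 𝕜 p V hφ hb) := by
  classical
  intro m
  obtain ⟨C, hC⟩ := blockBound (𝕜 := 𝕜) (p := p) (V := V) hφ hb m
  refine ⟨|C|, fun x hx => ?_⟩
  have h0 : 0 ≤ stepNorm p.1 (V.v m) x.seq := stepNorm_nonneg (V.nonneg m)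
  have : blockSeminorm 𝕜 p V hφ hb x =
      ⨆ n : ℕ, if (∃ k, φ k ≤ n ∧ n ≤ φ k + k) then ‖x.seq n‖ else 0 := rfl
  rw [this]
  refine ciSup_le (fun n => ?_)
  split_ifs with h
  · exact (hC x hx n h).trans (mul_le_mul_of_nonneg_right (le_abs_self _) h0)
  · exact mul_nonneg (abs_nonneg _) h0

lemma iterate_backwardShift
    (hB : ∀ x ∈ coechelonSubmodule 𝕜 p V, (fun j => x (j + 1)) ∈ coechelonSubmodule 𝕜 p V)
    (n : ℕ) (x : Coechelon 𝕜 p V) (j : ℕ) :
    ((backwardShift 𝕜 p V hB)^[n] x).seq j = x.seq (j + n) := by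
  induction n generalizing x with
  | zero => simp
  | succ n ih =>
    rw [Function.iterate_succ_apply, ih]
    show x.seq (j + n + 1) = _
    rw [add_assoc]

/-- If there are arbitrarily long blocks on which the weights are large, `B` is not ergodic. -/
lemma not_ergodic_of_blocks
    (hB : ∀ x ∈ coechelonSubmodule 𝕜 p V, (fun j => x (j + 1)) ∈ coechelonSubmodule 𝕜 p V)
    {φ : ℕ → ℕ} (hφ : StrictMono φ) (hb : ∀ k, ∀ i ≤ k, 1 ≤ V.v k (φ k + i)) :
    ¬ TopologicallyErgodic (backwardShift 𝕜 p V hB) := by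
  intro herg
  have hgrp : IsTopologicalAddGroup (Coechelon 𝕜 p V) :=
    (withSeminorms (𝕜 := 𝕜) (p := p) (V := V)).topologicalAddGroup
  set q := blockSeminorm 𝕜 p V hφ hb with hq
  have hqc : Continuous q := (blockSeminorm_stepContinuous hφ hb).continuous
  have hcc : Continuous (coordSeminorm 𝕜 p V 0) := (coordSeminorm_stepContinuous 0).continuous
  set U : Set (Coechelon 𝕜 p V) := {x | q x < 1 / 2} with hU
  set W : Set (Coechelon 𝕜 p V) := {y | coordSeminorm 𝕜 p V 0 (y - unitVec 𝕜 p V 0) < 1 / 2}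
    with hW
  have hUo : IsOpen U := isOpen_lt hqc continuous_const
  have hWo : IsOpen W := isOpen_lt (hcc.comp (continuous_id.sub continuous_const)) continuous_const
  have hUn : U.Nonempty := ⟨0, by simp [hU]⟩
  have hWn : W.Nonempty := ⟨unitVec 𝕜 p V 0, by simp [hW]⟩
  obtain ⟨q0, hsyn⟩ := herg U W hUo hWo hUn hWn
  obtain ⟨i, hi, hi1, hi2⟩ := hsyn (φ (q0 + 1)) (by have := hφ.id_le (q0 + 1); simp at this; omega)
  obtain ⟨-, y, ⟨x, hxU, rfl⟩, hyW⟩ := hi
  have hblock : ∃ k, φ k ≤ i ∧ i ≤ φ k + k := ⟨q0 + 1, hi1, by omega⟩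
  have h1 : ‖x.seq i‖ < 1 / 2 := lt_of_le_of_lt (le_blockSeminorm hφ hb x hblock) hxU
  have h2 : ‖((backwardShift 𝕜 p V hB)^[i] x).seq 0 - 1‖ < 1 / 2 := by
    have : coordSeminorm 𝕜 p V 0 ((backwardShift 𝕜 p V hB)^[i] x - unitVec 𝕜 p V 0)
        = ‖((backwardShift 𝕜 p V hB)^[i] x).seq 0 - 1‖ := by
      rw [coordSeminorm_apply, seq_sub, Pi.sub_apply, unitVec_seq, Pi.single_eq_same]
    rw [← this]; exact hyW
  rw [iterate_backwardShift, zero_add] at h2
  have h3 : ‖(1 : 𝕜)‖ ≤ ‖x.seq i‖ + ‖x.seq i - 1‖ := by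
    calc ‖(1 : 𝕜)‖ = ‖x.seq i - (x.seq i - 1)‖ := by congr 1; ring
      _ ≤ _ := norm_sub_le _ _
  rw [norm_one] at h3
  linarith

/-- Ergodicity forces some weight to tend to zero, provided each weight is infinitesimal with
respect to an earlier one. -/
lemma exists_tendsto_zero
    (hB : ∀ x ∈ coechelonSubmodule 𝕜 p V, (fun j => x (j + 1)) ∈ coechelonSubmodule 𝕜 p V)
    (hS : ∀ m, ∃ n, Tendsto (fun j => V.v n j / V.v m j) atTop (𝓝 0))
    (herg : TopologicallyErgodic (backwardShift 𝕜 p V hB)) :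
    ∃ m, Tendsto (V.v m) atTop (𝓝 0) := by
  by_contra hno
  push Not at hno
  have hC := shift_condition (𝕜 := 𝕜) (p := p) (V := V) hB
  obtain ⟨φ, hφ, hφ2⟩ := extraction_forall_of_frequently
    (fun k => frequently_blocks hC hS hno k k 1)
  exact not_ergodic_of_blocks hB hφ hφ2 herg

end nonergodic

/-! ## More on the step norms -/

section moresteps

variable {p : ℝ} {w : ℕ → ℝ} {x y : ℕ → 𝕜}

lemma stepNorm_add_le (hp : p = 0 ∨ 1 ≤ p) (hw : ∀ j, 0 ≤ w j)
    (hx : StepMem p w x) (hy : StepMem p w y) :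
    stepNorm p w (x + y) ≤ stepNorm p w x + stepNorm p w y := by
  by_cases h0 : p = 0
  · have h1 := fun j => coord_le_stepNorm hp hw hx j
    have h2 := fun j => coord_le_stepNorm hp hw hy j
    have : stepNorm p w (x + y) = ⨆ j, ‖(x + y) j‖ * w j := by rw [stepNorm, if_pos h0]
    rw [this]
    refine ciSup_le (fun j => ?_)
    calc ‖(x + y) j‖ * w j ≤ (‖x j‖ + ‖y j‖) * w j :=
          mul_le_mul_of_nonneg_right (norm_add_le _ _) (hw j)
      _ = ‖x j‖ * w j + ‖y j‖ * w j := by ring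
      _ ≤ _ := add_le_add (h1 j) (h2 j)
  · have hp1 : 1 ≤ p := hp.resolve_left h0
    have hp0 : 0 < p := by linarith
    have hxy := hx.add hp hw hy
    rw [StepMem, if_neg h0] at hx hy hxy
    rw [stepNorm, if_neg h0, stepNorm, if_neg h0, stepNorm, if_neg h0]
    obtain ⟨h1, h2⟩ := Real.Lp_add_le_tsum_of_nonneg hp1
      (fun j => mul_nonneg (norm_nonneg (x j)) (hw j))
      (fun j => mul_nonneg (norm_nonneg (y j)) (hw j)) hx hy
    refine le_trans (Real.rpow_le_rpow (tsum_nonneg (fun j => Real.rpow_nonneg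
      (mul_nonneg (norm_nonneg _) (hw j)) _)) ?_ (by positivity)) h2
    refine hxy.tsum_le_tsum (fun j => Real.rpow_le_rpow
      (mul_nonneg (norm_nonneg _) (hw j)) ?_ hp0.le) h1
    rw [← add_mul]
    exact mul_le_mul_of_nonneg_right (norm_add_le _ _) (hw j)

lemma stepNorm_const_mul (hp : p = 0 ∨ 1 ≤ p) (hw : ∀ j, 0 ≤ w j) {C : ℝ} (hC : 0 ≤ C) :
    stepNorm p (fun j => C * w j) x = C * stepNorm p w x := by
  by_cases h0 : p = 0
  · rw [stepNorm, if_pos h0, stepNorm, if_pos h0, Real.mul_iSup_of_nonneg hC]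
    exact iSup_congr (fun j => by ring)
  · have hp1 : 1 ≤ p := hp.resolve_left h0
    have hp0 : 0 < p := by linarith
    rw [stepNorm, if_neg h0, stepNorm, if_neg h0]
    have : ∀ j, (‖x j‖ * (C * w j)) ^ p = C ^ p * (‖x j‖ * w j) ^ p := by
      intro j
      rw [← Real.mul_rpow hC (mul_nonneg (norm_nonneg _) (hw j))]
      ring_nf
    simp_rw [this]
    rw [tsum_mul_left, Real.mul_rpow (Real.rpow_nonneg hC _) (tsum_nonneg (fun j =>
      Real.rpow_nonneg (mul_nonneg (norm_nonneg _) (hw j)) _)), ← Real.rpow_mul hC,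
      mul_one_div, div_self h0, Real.rpow_one]

lemma stepNorm_smul (hp : p = 0 ∨ 1 ≤ p) (hw : ∀ j, 0 ≤ w j) (c : 𝕜) :
    stepNorm p w (c • x) = ‖c‖ * stepNorm p w x := by
  rw [← stepNorm_const_mul hp hw (norm_nonneg c)]
  unfold stepNorm
  have : ∀ j, ‖(c • x) j‖ * w j = ‖x j‖ * (‖c‖ * w j) := by
    intro j
    simp only [Pi.smul_apply, smul_eq_mul, norm_mul]
    ring
  simp_rw [this]

lemma StepMem.const_mul (hp : p = 0 ∨ 1 ≤ p) (hw : ∀ j, 0 ≤ w j) {C : ℝ} (hC : 0 ≤ C)
    (hx : StepMem p w x) : StepMem p (fun j => C * w j) x := by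
  have := hx.smul hp hw (C : 𝕜)
  refine this.of_le hp (fun j => mul_nonneg hC (hw j)) (fun j => ?_)
  simp only [Pi.smul_apply, smul_eq_mul, norm_mul, RCLike.norm_ofReal, abs_of_nonneg hC]
  apply le_of_eq; ring

end moresteps

/-! ## Nuclearity implies that each weight is infinitesimal with respect to an earlier one -/

section nuclear

variable {p : Exponent} {V : WeightSystem}

/-- the weight seminorm attached to `w ∈ V̄` -/
noncomputable def weightSeminorm (𝕜 : Type*) [RCLike 𝕜] (p : Exponent) (V : WeightSystem)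
    (w : ℕ → ℝ) (hw : ∀ j, 0 ≤ w j) (hbd : ∀ m, ∃ C : ℝ, 0 ≤ C ∧ ∀ j, w j ≤ C * V.v m j) :
    Seminorm 𝕜 (Coechelon 𝕜 p V) :=
  have hmem : ∀ x : Coechelon 𝕜 p V, StepMem p.1 w x.seq := by
    intro x
    obtain ⟨m, hm⟩ := x.2
    obtain ⟨C, hC, h⟩ := hbd m
    exact (StepMem.const_mul p.2 (V.nonneg m) hC hm).of_le p.2 hw
      (fun j => mul_le_mul_of_nonneg_left (h j) (norm_nonneg _))
  Seminorm.of (fun x => stepNorm p.1 w x.seq)
    (fun x y => by rw [seq_add]; exact stepNorm_add_le p.2 hw (hmem x) (hmem y))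
    (fun c x => by rw [seq_smul]; exact stepNorm_smul p.2 hw c)

lemma weightSeminorm_apply {w : ℕ → ℝ} (hw : ∀ j, 0 ≤ w j)
    (hbd : ∀ m, ∃ C : ℝ, 0 ≤ C ∧ ∀ j, w j ≤ C * V.v m j) (x : Coechelon 𝕜 p V) :
    weightSeminorm 𝕜 p V w hw hbd x = stepNorm p.1 w x.seq := rfl

lemma stepMem_weight {w : ℕ → ℝ} (hw : ∀ j, 0 ≤ w j)
    (hbd : ∀ m, ∃ C : ℝ, 0 ≤ C ∧ ∀ j, w j ≤ C * V.v m j) (x : Coechelon 𝕜 p V) :
    StepMem p.1 w x.seq := by
  obtain ⟨m, hm⟩ := x.2
  obtain ⟨C, hC, h⟩ := hbd m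
  exact (StepMem.const_mul p.2 (V.nonneg m) hC hm).of_le p.2 hw
    (fun j => mul_le_mul_of_nonneg_left (h j) (norm_nonneg _))

lemma weightSeminorm_stepContinuous {w : ℕ → ℝ} (hw : ∀ j, 0 ≤ w j)
    (hbd : ∀ m, ∃ C : ℝ, 0 ≤ C ∧ ∀ j, w j ≤ C * V.v m j) :
    StepContinuous (weightSeminorm 𝕜 p V w hw hbd) := by
  intro m
  obtain ⟨C, hC, h⟩ := hbd m
  refine ⟨C, fun x hx => ?_⟩
  rw [weightSeminorm_apply, ← stepNorm_const_mul p.2 (V.nonneg m) hC]
  exact stepNorm_le_of_le p.2 hw (fun j => mul_le_mul_of_nonneg_left (h j) (norm_nonneg _))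
    (StepMem.const_mul p.2 (V.nonneg m) hC hx)

/-- The trace-type estimate: nuclearity bounds `∑_{j ∈ F} w_j / v^{(m)}_j` uniformly in `F`. -/
lemma nuclear_trace_bound (hnuc : IsNuclearSpace 𝕜 (Coechelon 𝕜 p V))
    {w : ℕ → ℝ} (hw : ∀ j, 0 < w j)
    (hbd : ∀ m, ∃ C : ℝ, 0 ≤ C ∧ ∀ j, w j ≤ C * V.v m j) (m : ℕ) :
    ∃ B : ℝ, ∀ F : Finset ℕ, ∑ j ∈ F, w j / V.v m j ≤ B := by
  set S := weightSeminorm 𝕜 p V w (fun j => (hw j).le) hbd with hS
  obtain ⟨q, hq, -, c, f, y, hc, hf, hy, hlim⟩ := hnuc S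
    (weightSeminorm_stepContinuous (fun j => (hw j).le) hbd).continuous
  obtain ⟨C, hC⟩ := stepContinuous_of_continuous hq m
  refine ⟨(∑' k, |c k|) * |C|, fun F => ?_⟩
  -- the coordinatewise expansion of the unit vectors
  have hone : ∀ j, Tendsto (fun N => ∑ k ∈ Finset.range N,
      (c k : 𝕜) * f k (unitVec 𝕜 p V j) * (y k).seq j) atTop (𝓝 1) := by
    intro j
    have h1 := hlim (unitVec 𝕜 p V j)
    have h2 : ∀ N, ‖1 - ∑ k ∈ Finset.range N,
        (c k : 𝕜) * f k (unitVec 𝕜 p V j) * (y k).seq j‖ ≤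
        (w j)⁻¹ * S (unitVec 𝕜 p V j - ∑ k ∈ Finset.range N,
          ((c k : 𝕜) * f k (unitVec 𝕜 p V j)) • y k) := by
      intro N
      have h3 := coord_le_stepNorm p.2 (fun j => (hw j).le)
        (stepMem_weight (fun j => (hw j).le) hbd (unitVec 𝕜 p V j - ∑ k ∈ Finset.range N,
          ((c k : 𝕜) * f k (unitVec 𝕜 p V j)) • y k)) j
      rw [inv_mul_eq_div, le_div_iff₀ (hw j)]
      refine le_trans (le_of_eq ?_) h3
      congr 2
      rw [seq_sub, Pi.sub_apply, seq_sum, Finset.sum_apply, unitVec_seq, Pi.single_eq_same]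
      congr 1
    have h3 : Tendsto (fun N => ‖1 - ∑ k ∈ Finset.range N,
        (c k : 𝕜) * f k (unitVec 𝕜 p V j) * (y k).seq j‖) atTop (𝓝 0) :=
      squeeze_zero (fun _ => norm_nonneg _) h2 (by simpa using h1.const_mul (w j)⁻¹)
    rw [← tendsto_zero_iff_norm_tendsto_zero] at h3
    have h4 := (tendsto_const_nhds (x := (1 : 𝕜)) (f := atTop (α := ℕ))).sub h3
    simpa using h4
  -- sum over `F`
  have hsum : Tendsto (fun N => ∑ k ∈ Finset.range N, (c k : 𝕜) *
      f k (∑ j ∈ F, (((w j / V.v m j : ℝ) : 𝕜) * (y k).seq j) • unitVec 𝕜 p V j)) atTop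
      (𝓝 (((∑ j ∈ F, w j / V.v m j : ℝ)) : 𝕜)) := by
    have h1 : Tendsto (fun N => ∑ j ∈ F, ((w j / V.v m j : ℝ) : 𝕜) * ∑ k ∈ Finset.range N,
      (c k : 𝕜) * f k (unitVec 𝕜 p V j) * (y k).seq j) atTop
      (𝓝 (∑ j ∈ F, ((w j / V.v m j : ℝ) : 𝕜) * 1)) :=
      tendsto_finsetSum _ (fun j _ => (hone j).const_mul _)
    have h2 : (∑ j ∈ F, ((w j / V.v m j : ℝ) : 𝕜) * 1) = (((∑ j ∈ F, w j / V.v m j : ℝ)) : 𝕜) := by
      push_cast; simp
    rw [h2] at h1
    refine h1.congr (fun N => ?_)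
    simp_rw [map_sum, map_smul, smul_eq_mul, Finset.mul_sum]
    rw [Finset.sum_comm]
    refine Finset.sum_congr rfl (fun k _ => Finset.sum_congr rfl (fun j _ => by ring))
  have hbound : ∀ k, ‖f k (∑ j ∈ F, (((w j / V.v m j : ℝ) : 𝕜) * (y k).seq j) • unitVec 𝕜 p V j)‖
      ≤ |C| := by
    intro k
    classical
    set z := ∑ j ∈ F, (((w j / V.v m j : ℝ) : 𝕜) * (y k).seq j) • unitVec 𝕜 p V j with hz
    have hzseq : ∀ i, z.seq i = if i ∈ F then ((w i / V.v m i : ℝ) : 𝕜) * (y k).seq i else 0 := by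
      intro i
      rw [hz, seq_sum, Finset.sum_apply]
      have : ∀ j ∈ F, ((((w j / V.v m j : ℝ) : 𝕜) * (y k).seq j) • unitVec 𝕜 p V j).seq i
          = if i = j then ((w j / V.v m j : ℝ) : 𝕜) * (y k).seq j else 0 := by
        intro j _
        rw [seq_smul, unitVec_seq, Pi.smul_apply, Pi.single_apply, smul_eq_mul]
        split_ifs <;> simp
      rw [Finset.sum_congr rfl this, Finset.sum_ite_eq]
    have hzle : ∀ i, ‖z.seq i‖ * V.v m i ≤ ‖(y k).seq i‖ * w i := by
      intro i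
      rw [hzseq]
      split_ifs with hi
      · rw [norm_mul, RCLike.norm_ofReal, abs_of_nonneg (div_nonneg (hw i).le (V.nonneg _ _))]
        have := (V.pos m i).ne'
        apply le_of_eq
        field_simp
      · rw [norm_zero, zero_mul]
        exact mul_nonneg (norm_nonneg _) (hw i).le
    have hym := stepMem_weight (fun j => (hw j).le) hbd (y k)
    have h1 : StepMem p.1 (V.v m) z.seq := hym.of_le p.2 (V.nonneg m) hzle
    have h2 : stepNorm p.1 (V.v m) z.seq ≤ 1 :=
      (stepNorm_le_of_le p.2 (V.nonneg m) hzle hym).trans (hy k)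
    calc ‖f k z‖ ≤ q z := hf k z
      _ ≤ C * stepNorm p.1 (V.v m) z.seq := hC z h1
      _ ≤ |C| * 1 := mul_le_mul (le_abs_self _) h2 (stepNorm_nonneg (V.nonneg m)) (abs_nonneg _)
      _ = |C| := mul_one _
  have hle : ∀ N, ‖∑ k ∈ Finset.range N, (c k : 𝕜) *
      f k (∑ j ∈ F, (((w j / V.v m j : ℝ) : 𝕜) * (y k).seq j) • unitVec 𝕜 p V j)‖
      ≤ (∑' k, |c k|) * |C| := by
    intro N
    calc _ ≤ ∑ k ∈ Finset.range N, |c k| * |C| := by
          refine (norm_sum_le _ _).trans (Finset.sum_le_sum (fun k _ => ?_))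
          rw [norm_mul, RCLike.norm_ofReal]
          exact mul_le_mul_of_nonneg_left (hbound k) (abs_nonneg _)
      _ = (∑ k ∈ Finset.range N, |c k|) * |C| := by rw [Finset.sum_mul]
      _ ≤ _ := mul_le_mul_of_nonneg_right (hc.sum_le_tsum _ (fun _ _ => abs_nonneg _))
          (abs_nonneg _)
  have hfin := le_of_tendsto hsum.norm (Eventually.of_forall hle)
  rw [RCLike.norm_ofReal] at hfin
  exact (le_abs_self _).trans hfin

lemma nuclear_condition (hnuc : IsNuclearSpace 𝕜 (Coechelon 𝕜 p V)) (m : ℕ) :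
    ∃ n, Tendsto (fun j => V.v n j / V.v m j) atTop (𝓝 0) := by
  by_contra hcon
  push Not at hcon
  have hA : ∀ n j, 0 ≤ V.v n j / V.v m j := fun n j => div_nonneg (V.nonneg _ _) (V.nonneg _ _)
  -- the partial sums of each ratio are unbounded, from any starting point
  have hunb : ∀ n a : ℕ, ∃ b, a < b ∧ (n : ℝ) ≤ ∑ j ∈ Finset.Ico a b, V.v n j / V.v m j := by
    intro n a
    by_contra hc
    push Not at hc
    apply hcon n
    have hsm : Summable (fun j => V.v n (j + a) / V.v m (j + a)) := by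
      refine summable_of_sum_range_le (c := n) (fun j => hA n _) (fun N => ?_)
      rcases Nat.eq_zero_or_pos N with h | h
      · subst h; simp
      · have h1 := hc (a + N) (by omega)
        rw [Finset.sum_Ico_eq_sum_range] at h1
        rw [show a + N - a = N by omega] at h1
        refine le_trans (le_of_eq (Finset.sum_congr rfl (fun j _ => ?_))) h1.le
        rw [add_comm]
    exact (tendsto_add_atTop_iff_nat (f := fun j => V.v n j / V.v m j) a).1
      hsm.tendsto_atTop_zero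
  choose g hg1 hg2 using hunb
  -- block boundaries
  obtain ⟨a, ha0, has⟩ : ∃ a : ℕ → ℕ, a 0 = 0 ∧ ∀ n, a (n + 1) = g n (a n) :=
    ⟨fun n => Nat.rec (motive := fun _ => ℕ) 0 (fun k ak => g k ak) n, rfl, fun n => rfl⟩
  have hamono : StrictMono a := strictMono_nat_of_lt_succ (fun n => by rw [has]; exact hg1 n _)
  -- the block index
  let κ : ℕ → ℕ := fun j => Nat.findGreatest (fun n : ℕ => a n ≤ j) j
  have hκ1 : ∀ j, a (κ j) ≤ j := by
    intro j
    exact Nat.findGreatest_spec (P := fun n : ℕ => a n ≤ j) (m := 0) (Nat.zero_le j)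
      (by simp only [ha0]; exact Nat.zero_le j)
  have hκ2 : ∀ n j, a n ≤ j → n ≤ κ j := by
    intro n j h
    exact Nat.le_findGreatest ((hamono.id_le n).trans h) h
  have hκ3 : ∀ n j, j ∈ Finset.Ico (a n) (a (n + 1)) → κ j = n := by
    intro n j hj
    rw [Finset.mem_Ico] at hj
    apply le_antisymm
    · by_contra hc
      push Not at hc
      have := (hamono.monotone (Nat.succ_le_of_lt hc)).trans (hκ1 j)
      simp only [Nat.succ_eq_add_one] at this
      omega
    · exact hκ2 n j hj.1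
  set w : ℕ → ℝ := fun j => V.v (κ j) j with hw
  have hbd : ∀ m', ∃ C : ℝ, 0 ≤ C ∧ ∀ j, w j ≤ C * V.v m' j := by
    intro m'
    refine ⟨1 + ∑ i ∈ Finset.range (a m'), w i / V.v m' i, ?_, fun j => ?_⟩
    · have : 0 ≤ ∑ i ∈ Finset.range (a m'), w i / V.v m' i :=
        Finset.sum_nonneg (fun i _ => div_nonneg (V.nonneg _ _) (V.nonneg _ _))
      linarith
    · have hs : ∀ i, 0 ≤ w i / V.v m' i := fun i => div_nonneg (V.nonneg _ _) (V.nonneg _ _)
      have hs2 : 0 ≤ ∑ i ∈ Finset.range (a m'), w i / V.v m' i :=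
        Finset.sum_nonneg (fun i _ => hs i)
      have hv := V.pos m' j
      rcases lt_or_ge j (a m') with h | h
      · have h1 : w j / V.v m' j ≤ ∑ i ∈ Finset.range (a m'), w i / V.v m' i :=
          Finset.single_le_sum (f := fun i => w i / V.v m' i) (fun i _ => hs i)
            (Finset.mem_range.2 h)
        rw [div_le_iff₀ hv] at h1
        nlinarith
      · have h1 : w j ≤ V.v m' j := V.anti' (hκ2 m' j h) j
        nlinarith [mul_nonneg hs2 hv.le]
  obtain ⟨B, hB⟩ := nuclear_trace_bound hnuc (fun j => V.pos (κ j) j) hbd m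
  obtain ⟨n, hn⟩ := exists_nat_gt B
  have h1 := hg2 n (a n)
  rw [← has] at h1
  have h2 := hB (Finset.Ico (a n) (a (n + 1)))
  have h3 : ∑ j ∈ Finset.Ico (a n) (a (n + 1)), V.v (κ j) j / V.v m j
      = ∑ j ∈ Finset.Ico (a n) (a (n + 1)), V.v n j / V.v m j :=
    Finset.sum_congr rfl (fun j hj => by rw [hκ3 n j hj])
  rw [h3] at h2
  linarith

end nuclear

/-! ## Weights tending to zero give a sequentially hypercyclic vector -/

section hypercyclic

/-- right shift by `n` places -/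
def shiftR (n : ℕ) (y : ℕ → 𝕜) : ℕ → 𝕜 := fun i => if n ≤ i then y (i - n) else 0

lemma sum_norm_shiftR_le (t N len : ℕ) (y : ℕ → 𝕜) (hy : ∀ j, len ≤ j → y j = 0) :
    ∑ j ∈ Finset.range N, ‖shiftR t y j‖ ≤ ∑ j ∈ Finset.range len, ‖y j‖ := by
  have h1 : ∑ j ∈ Finset.range N, ‖shiftR t y j‖ ≤ ∑ j ∈ Finset.range (t + (N + len)),
      ‖shiftR t y j‖ :=
    Finset.sum_le_sum_of_subset_of_nonneg
      (fun i hi => by rw [Finset.mem_range] at *; omega) (fun _ _ _ => norm_nonneg _)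
  rw [Finset.sum_range_add] at h1
  have h2 : ∑ j ∈ Finset.range t, ‖shiftR t y j‖ = 0 := by
    refine Finset.sum_eq_zero (fun j hj => ?_)
    rw [Finset.mem_range] at hj
    simp [shiftR, not_le.2 hj]
  rw [h2, zero_add] at h1
  refine h1.trans (le_of_eq ?_)
  have h3 : ∀ j, ‖shiftR t y (t + j)‖ = ‖y j‖ := by
    intro j
    simp [shiftR]
  simp_rw [h3]
  rw [Nat.add_comm N len, Finset.sum_range_add]
  have h4 : ∑ j ∈ Finset.range N, ‖y (len + j)‖ = 0 :=
    Finset.sum_eq_zero (fun j _ => by rw [hy _ (by omega), norm_zero])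
  rw [h4, add_zero]

/-- the finitely supported vector coded by a natural number -/
noncomputable def codeVec (𝕜 : Type*) [RCLike 𝕜] (l : ℕ) : ℕ → 𝕜 := fun j =>
  (((Encodable.decode (α := List ℕ) (Nat.unpair l).1).getD [])[j]?).elim 0
    (TopologicalSpace.denseSeq 𝕜)

/-- the length of its support -/
def codeLen (l : ℕ) : ℕ := ((Encodable.decode (α := List ℕ) (Nat.unpair l).1).getD []).length

lemma codeVec_eq_zero (l j : ℕ) (h : codeLen l ≤ j) : codeVec 𝕜 l j = 0 := by
  unfold codeVec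
  rw [List.getElem?_eq_none h]
  rfl

lemma codeVec_pair (s : List ℕ) (K j : ℕ) :
    codeVec 𝕜 (Nat.pair (Encodable.encode s) K) j
      = (s[j]?).elim 0 (TopologicalSpace.denseSeq 𝕜) := by
  unfold codeVec
  rw [Nat.unpair_pair]
  simp

/-- the coded vectors approximate each element of a step, with arbitrarily large code -/
lemma exists_code {p : ℝ} (hp : p = 0 ∨ 1 ≤ p) {w : ℕ → ℝ} (hw : ∀ j, 0 ≤ w j) {y : ℕ → 𝕜}
    (hy : StepMem p w y) {ε : ℝ} (hε : 0 < ε) (K : ℕ) :
    ∃ l, K ≤ l ∧ StepMem p w (codeVec 𝕜 l - y) ∧ stepNorm p w (codeVec 𝕜 l - y) < ε := by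
  have htail := tendsto_stepNorm_tail hp hw hy
  obtain ⟨N, hN⟩ := (htail.eventually (gt_mem_nhds (half_pos hε))).exists
  have happ : ∀ j, ∃ i, ‖TopologicalSpace.denseSeq 𝕜 i - y j‖ * w j ≤ ε / (4 * (N + 1)) := by
    intro j
    have hd := TopologicalSpace.denseRange_denseSeq 𝕜
    obtain ⟨i, hi⟩ := hd.exists_dist_lt (y j) (ε := ε / (4 * (N + 1)) / (w j + 1))
      (by have := hw j; positivity)
    refine ⟨i, ?_⟩
    rw [dist_comm, dist_eq_norm, lt_div_iff₀ (by have := hw j; linarith)] at hi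
    refine le_trans ?_ hi.le
    exact mul_le_mul_of_nonneg_left (by linarith) (norm_nonneg _)
  choose c hc using happ
  set s : List ℕ := (List.range N).map c with hs
  set l := Nat.pair (Encodable.encode s) K with hl
  have hval : ∀ j, codeVec 𝕜 l j = if j < N then TopologicalSpace.denseSeq 𝕜 (c j) else 0 := by
    intro j
    rw [hl, codeVec_pair, hs]
    split_ifs with h
    · simp [h]
    · rw [List.getElem?_eq_none (by simp; omega)]
      rfl
  set z1 : ℕ → 𝕜 := fun j => if j < N then codeVec 𝕜 l j - y j else 0 with hz1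
  set z2 : ℕ → 𝕜 := fun j => if j < N then 0 else y j with hz2
  have hdec : codeVec 𝕜 l - y = z1 + (-1 : 𝕜) • z2 := by
    ext j
    simp only [hz1, hz2, Pi.sub_apply, Pi.add_apply, Pi.smul_apply, smul_eq_mul]
    split_ifs with h
    · ring
    · rw [hval, if_neg h]; ring
  have hz2m : StepMem p w z2 := by
    refine hy.of_le hp hw (fun j => ?_)
    simp only [hz2]
    split_ifs with h
    · rw [norm_zero, zero_mul]; exact mul_nonneg (norm_nonneg _) (hw j)
    · exact le_rfl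
  have hsupp : ∀ j ∉ Finset.range N, ‖z1 j‖ * w j = 0 := by
    intro j hj
    rw [Finset.mem_range] at hj
    simp [hz1, hj]
  have hz1s : Summable (fun j => ‖z1 j‖ * w j) := summable_of_ne_finset_zero hsupp
  obtain ⟨hz1m, hz1n⟩ := stepMem_of_summable hp hw hz1s
  have hz1b : stepNorm p w z1 ≤ ε / 4 := by
    refine hz1n.trans ?_
    rw [tsum_eq_sum hsupp]
    calc ∑ j ∈ Finset.range N, ‖z1 j‖ * w j ≤ ∑ j ∈ Finset.range N, ε / (4 * (N + 1)) := by
          refine Finset.sum_le_sum (fun j hj => ?_)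
          rw [Finset.mem_range] at hj
          simp only [hz1]
          rw [if_pos hj, hval, if_pos hj]
          exact hc j
      _ = N * (ε / (4 * (N + 1))) := by rw [Finset.sum_const, Finset.card_range, nsmul_eq_mul]
      _ ≤ ε / 4 := by
          have : (N : ℝ) * (ε / (4 * (N + 1))) = (ε / 4) * (N / (N + 1)) := by
            field_simp
          rw [this]
          have h1 : (N : ℝ) / (N + 1) ≤ 1 := by
            rw [div_le_one (by positivity)]; linarith
          nlinarith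
  refine ⟨l, Nat.right_le_pair _ _, ?_, ?_⟩
  · rw [hdec]
    exact hz1m.add hp hw (hz2m.smul hp hw _)
  · rw [hdec]
    refine lt_of_le_of_lt (stepNorm_add_le hp hw hz1m (hz2m.smul hp hw _)) ?_
    rw [stepNorm_smul hp hw, norm_neg, norm_one, one_mul]
    have : stepNorm p w z2 < ε / 2 := hN
    linarith

variable {p : Exponent} {V : WeightSystem}

lemma sequentiallyHypercyclic_of_tendsto
    (hB : ∀ x ∈ coechelonSubmodule 𝕜 p V, (fun j => x (j + 1)) ∈ coechelonSubmodule 𝕜 p V)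
    {m : ℕ} (hm : Tendsto (V.v m) atTop (𝓝 0)) :
    SequentiallyHypercyclic (backwardShift 𝕜 p V hB) := by
  -- abbreviations
  set Y : ℕ → ℕ → 𝕜 := codeVec 𝕜 with hY
  set len : ℕ → ℕ := codeLen with hlen
  have hYlen : ∀ l j, len l ≤ j → Y l j = 0 := fun l j h => codeVec_eq_zero l j h
  set A : ℕ → ℝ := fun l => ∑ j ∈ Finset.range (len l), ‖Y l j‖ with hA
  have hA0 : ∀ l, 0 ≤ A l := fun l => Finset.sum_nonneg (fun _ _ => norm_nonneg _)
  have hT : ∀ l, ∃ T, 1 ≤ T ∧ ∀ t, T ≤ t → V.v m t ≤ (1 / 2 : ℝ) ^ l / (1 + A l) := by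
    intro l
    have hpos : (0 : ℝ) < (1 / 2 : ℝ) ^ l / (1 + A l) := by
      have := hA0 l
      positivity
    obtain ⟨T, hT⟩ := eventually_atTop.1 (hm.eventually (gt_mem_nhds hpos))
    exact ⟨max T 1, le_max_right _ _, fun t ht => (hT t ((le_max_left _ _).trans ht)).le⟩
  choose T hT1 hT2 using hT
  obtain ⟨n, hn0, hns⟩ : ∃ n : ℕ → ℕ, n 0 = T 0 ∧ ∀ l, n (l + 1) = n l + len l + T (l + 1) :=
    ⟨fun k => Nat.rec (motive := fun _ => ℕ) (T 0) (fun l nl => nl + len l + T (l + 1)) k,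
      rfl, fun l => rfl⟩
  have hnT : ∀ l, T l ≤ n l := by
    intro l
    cases l with
    | zero => exact hn0.ge
    | succ l => rw [hns]; omega
  have hngap : ∀ k l, k < l → n k + len k + T l ≤ n l := by
    intro k l h
    induction l, h using Nat.le_induction with
    | base => rw [hns]
    | succ l hl ih =>
      have h1 := hT1 (l + 1)
      have h2 := hns l
      have h3 := hnT l
      omega
  have hnid : ∀ l, l ≤ n l := by
    intro l
    induction l with
    | zero => exact Nat.zero_le _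
    | succ l ih =>
      have h1 := hT1 (l + 1)
      rw [hns]
      omega
  -- single shifted term
  have hterm : ∀ l t N, T l ≤ t →
      ∑ j ∈ Finset.range N, ‖shiftR t (Y l) j‖ * V.v m j ≤ (1 / 2 : ℝ) ^ l := by
    intro l t N ht
    have h1 : ∀ j ∈ Finset.range N, ‖shiftR t (Y l) j‖ * V.v m j
        ≤ ‖shiftR t (Y l) j‖ * ((1 / 2 : ℝ) ^ l / (1 + A l)) := by
      intro j _
      rcases le_or_gt t j with h | h
      · exact mul_le_mul_of_nonneg_left (hT2 l j (ht.trans h)) (norm_nonneg _)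
      · have : shiftR t (Y l) j = 0 := by simp [shiftR, not_le.2 h]
        rw [this]; simp
    refine (Finset.sum_le_sum h1).trans ?_
    rw [← Finset.sum_mul]
    have h2 := sum_norm_shiftR_le t N (len l) (Y l) (hYlen l)
    have h3 : (0 : ℝ) < 1 + A l := by have := hA0 l; linarith
    have h4 : (0 : ℝ) < (1 / 2 : ℝ) ^ l := by positivity
    calc (∑ j ∈ Finset.range N, ‖shiftR t (Y l) j‖) * ((1 / 2 : ℝ) ^ l / (1 + A l))
        ≤ A l * ((1 / 2 : ℝ) ^ l / (1 + A l)) :=
          mul_le_mul_of_nonneg_right h2 (by positivity)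
      _ = (1 / 2 : ℝ) ^ l * (A l / (1 + A l)) := by ring
      _ ≤ (1 / 2 : ℝ) ^ l * 1 := by
          refine mul_le_mul_of_nonneg_left ?_ h4.le
          rw [div_le_one h3]; linarith
      _ = _ := mul_one _
  -- the general sum of shifted terms
  let Z : ℕ → ℕ → ℕ → 𝕜 := fun s k0 j =>
    ∑ l ∈ Finset.Ico k0 (j + s + 1), shiftR (n l - s) (Y l) j
  have hZ : ∀ s k0, (∀ l, k0 ≤ l → s + T l ≤ n l) → ∀ N,
      ∑ j ∈ Finset.range N, ‖Z s k0 j‖ * V.v m j ≤ 2 * (1 / 2 : ℝ) ^ k0 := by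
    intro s k0 hs N
    have h1 : ∀ j ∈ Finset.range N, ‖Z s k0 j‖ * V.v m j ≤
        ∑ l ∈ Finset.Ico k0 (N + s + 1 + k0), ‖shiftR (n l - s) (Y l) j‖ * V.v m j := by
      intro j hj
      rw [Finset.mem_range] at hj
      rw [← Finset.sum_mul]
      refine mul_le_mul_of_nonneg_right ((norm_sum_le _ _).trans ?_) (V.nonneg _ _)
      exact Finset.sum_le_sum_of_subset_of_nonneg
        (Finset.Ico_subset_Ico_right (by omega)) (fun _ _ _ => norm_nonneg _)
    refine (Finset.sum_le_sum h1).trans ?_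
    rw [Finset.sum_comm]
    have h2 : ∀ l ∈ Finset.Ico k0 (N + s + 1 + k0),
        ∑ j ∈ Finset.range N, ‖shiftR (n l - s) (Y l) j‖ * V.v m j ≤ (1 / 2 : ℝ) ^ l := by
      intro l hl
      rw [Finset.mem_Ico] at hl
      have := hs l hl.1
      exact hterm l (n l - s) N (by omega)
    refine (Finset.sum_le_sum h2).trans ?_
    rw [Finset.sum_Ico_eq_sum_range]
    have h3 : ∀ i ∈ Finset.range (N + s + 1 + k0 - k0), (1 / 2 : ℝ) ^ (k0 + i)
        = (1 / 2 : ℝ) ^ k0 * (1 / 2 : ℝ) ^ i := fun i _ => pow_add _ _ _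
    rw [Finset.sum_congr rfl h3, ← Finset.mul_sum, mul_comm]
    refine mul_le_mul_of_nonneg_right ?_ (by positivity)
    have h4 : Summable (fun i : ℕ => (1 / 2 : ℝ) ^ i) :=
      summable_geometric_of_lt_one (by norm_num) (by norm_num)
    have h5 := h4.sum_le_tsum (Finset.range (N + s + 1 + k0 - k0)) (fun _ _ => by positivity)
    rw [tsum_geometric_of_lt_one (by norm_num) (by norm_num)] at h5
    refine h5.trans (by norm_num)
  have hZsum : ∀ s k0, (∀ l, k0 ≤ l → s + T l ≤ n l) →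
      Summable (fun j => ‖Z s k0 j‖ * V.v m j) ∧
      ∑' j, ‖Z s k0 j‖ * V.v m j ≤ 2 * (1 / 2 : ℝ) ^ k0 := by
    intro s k0 hs
    have h1 : Summable (fun j => ‖Z s k0 j‖ * V.v m j) :=
      summable_of_sum_range_le (fun j => mul_nonneg (norm_nonneg _) (V.nonneg _ _)) (hZ s k0 hs)
    refine ⟨h1, ?_⟩
    exact Real.tsum_le_of_sum_range_le (fun j => mul_nonneg (norm_nonneg _) (V.nonneg _ _))
      (hZ s k0 hs)
  -- the hypercyclic vector
  have hx0 := hZsum 0 0 (fun l _ => by have := hnT l; omega)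
  let x : Coechelon 𝕜 p V := ⟨Z 0 0, m, (stepMem_of_summable p.2 (V.nonneg m) hx0.1).1⟩
  have hxval : ∀ j, x.seq j = ∑ l ∈ Finset.range (j + 1), shiftR (n l) (Y l) j := by
    intro j
    show Z 0 0 j = _
    simp only [Z, Nat.add_zero, Nat.sub_zero, Finset.range_eq_Ico]
  -- the iterates
  have hiter : ∀ k j, x.seq (j + n k) = Y k j + Z (n k) (k + 1) j := by
    intro k j
    rw [hxval]
    have h1 : ∀ l ∈ Finset.range (j + n k + 1), shiftR (n l) (Y l) (j + n k)
        = if l = k then Y k j else if k + 1 ≤ l then shiftR (n l - n k) (Y l) j else 0 := by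
      intro l _
      rcases lt_trichotomy l k with h | h | h
      · rw [if_neg (by omega), if_neg (by omega)]
        have h2 := hngap l k h
        unfold shiftR
        rw [if_pos (by omega)]
        exact hYlen l _ (by omega)
      · subst h
        rw [if_pos rfl]
        unfold shiftR
        rw [if_pos (by omega), Nat.add_sub_cancel]
      · rw [if_neg (by omega), if_pos (by omega)]
        have h2 := hngap k l h
        unfold shiftR
        by_cases h3 : n l - n k ≤ j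
        · rw [if_pos (by omega), if_pos h3]
          congr 1
          omega
        · rw [if_neg (by omega), if_neg h3]
    rw [Finset.sum_congr rfl h1]
    have hk : k ∈ Finset.range (j + n k + 1) := by
      rw [Finset.mem_range]
      have := hnid k
      omega
    rw [← Finset.add_sum_erase _ _ hk, if_pos rfl]
    congr 1
    show _ = ∑ l ∈ Finset.Ico (k + 1) (j + n k + 1), shiftR (n l - n k) (Y l) j
    have h2 : Finset.Ico (k + 1) (j + n k + 1) ⊆ (Finset.range (j + n k + 1)).erase k := by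
      intro l hl
      rw [Finset.mem_Ico] at hl
      rw [Finset.mem_erase, Finset.mem_range]
      omega
    rw [← Finset.sum_subset h2]
    · refine Finset.sum_congr rfl (fun l hl => ?_)
      rw [Finset.mem_Ico] at hl
      rw [if_neg (by omega), if_pos hl.1]
    · intro l hl hl2
      rw [Finset.mem_erase, Finset.mem_range] at hl
      rw [Finset.mem_Ico] at hl2
      rw [if_neg hl.1, if_neg (by omega)]
  -- density
  refine ⟨x, fun y => ?_⟩
  obtain ⟨my, hmy⟩ := y.2
  set M := max m my with hM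
  have hyM : StepMem p.1 (V.v M) y.seq := stepMem_mono p V (le_max_right m my) hmy
  have hex : ∀ i : ℕ, ∃ l, i ≤ l ∧ StepMem p.1 (V.v M) (Y l - y.seq) ∧
      stepNorm p.1 (V.v M) (Y l - y.seq) < 1 / ((i : ℝ) + 1) :=
    fun i => exists_code p.2 (V.nonneg M) hyM (by positivity) i
  choose l hl1 hl2 hl3 using hex
  refine ⟨fun i => n (l i), ?_⟩
  have hZi : ∀ i, StepMem p.1 (V.v M) (Z (n (l i)) (l i + 1)) ∧
      stepNorm p.1 (V.v M) (Z (n (l i)) (l i + 1)) ≤ 2 * (1 / 2 : ℝ) ^ i := by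
    intro i
    have h1 := hZsum (n (l i)) (l i + 1) (fun l' hl' => by
      have := hngap (l i) l' (by omega)
      omega)
    have h2 := stepMem_of_summable p.2 (V.nonneg m) h1.1
    refine ⟨stepMem_mono p V (le_max_left m my) h2.1, ?_⟩
    have h3 : stepNorm p.1 (V.v M) (Z (n (l i)) (l i + 1)) ≤
        stepNorm p.1 (V.v m) (Z (n (l i)) (l i + 1)) :=
      stepNorm_le_of_le p.2 (V.nonneg M) (fun j => mul_le_mul_of_nonneg_left
        (V.anti' (le_max_left m my) j) (norm_nonneg _)) h2.1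
    refine h3.trans (h2.2.trans (h1.2.trans ?_))
    have h4 : (1 / 2 : ℝ) ^ (l i + 1) ≤ (1 / 2 : ℝ) ^ i :=
      pow_le_pow_of_le_one (by norm_num) (by norm_num) (by have := hl1 i; omega)
    linarith
  have hdiff : ∀ i, ((backwardShift 𝕜 p V hB)^[n (l i)] x - y).seq
      = (Y (l i) - y.seq) + Z (n (l i)) (l i + 1) := by
    intro i
    ext j
    rw [seq_sub, Pi.sub_apply, iterate_backwardShift, hiter]
    simp only [Pi.add_apply, Pi.sub_apply]
    ring
  refine tendsto_of_step M (fun i => ?_) ?_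
  · rw [hdiff]
    exact (hl2 i).add p.2 (V.nonneg M) (hZi i).1
  · have hlim : Tendsto (fun i : ℕ => 1 / ((i : ℝ) + 1) + 2 * (1 / 2 : ℝ) ^ i) atTop (𝓝 0) := by
      have h1 := tendsto_one_div_add_atTop_nhds_zero_nat (𝕜 := ℝ)
      have h2 : Tendsto (fun i : ℕ => (1 / 2 : ℝ) ^ i) atTop (𝓝 0) :=
        tendsto_pow_atTop_nhds_zero_of_lt_one (by norm_num) (by norm_num)
      simpa using h1.add (h2.const_mul 2)
    refine squeeze_zero (fun i => stepNorm_nonneg (V.nonneg M)) (fun i => ?_) hlim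
    rw [hdiff]
    exact (stepNorm_add_le p.2 (V.nonneg M) (hl2 i) (hZi i).1).trans
      (add_le_add (hl3 i).le (hZi i).2)

end hypercyclic

/-- **Main theorem** (negative answer to Q1). Let `p ∈ {0} ∪ [1, ∞)` and let `V` be a decreasing
sequence of strictly positive weights such that the backward shift `B` maps `k_p(V)` into itself.
If `k_p(V)` is nuclear and `B` is topologically ergodic on `k_p(V)`, then `B` is sequentially
hypercyclic on `k_p(V)`. -/
theorem result (𝕜 : Type*) [RCLike 𝕜] (p : Exponent) (V : WeightSystem)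
    (hB : ∀ x ∈ coechelonSubmodule 𝕜 p V, (fun j => x (j + 1)) ∈ coechelonSubmodule 𝕜 p V)
    (hnuc : IsNuclearSpace 𝕜 (Coechelon 𝕜 p V))
    (herg : TopologicallyErgodic (backwardShift 𝕜 p V hB)) :
    SequentiallyHypercyclic (backwardShift 𝕜 p V hB) := by
  obtain ⟨m, hm⟩ := exists_tendsto_zero hB (nuclear_condition hnuc) herg
  exact sequentiallyHypercyclic_of_tendsto hB hm

end Pool.Agent.Results.MP_b30f08_an.NuclearErgodic
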